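import Pool.Agent.Helper34.PU.Goals
import Pool.Agent.Helper30.Brouwer.Kakutani

/-!
Packet MU of MP_8060f4_co : starting intensities (by Brouwer's fixed point theorem).
-/

set_option autoImplicit false

open Finset
open scoped Classical

namespace Pool.Agent.Helper77.PU

open Pool.Agent.Helper34.PU

section Basic

variable {V : Type}

theorem in_nonneg (R : RF V) (z : V) : 0 ≤ R.In z :=
  Finset.sum_nonneg fun ω _ => by
    split_ifs
    exacts [R.w_nonneg ω, le_rfl]

theorem bef_nonneg (R : RF V) (a b : V) : 0 ≤ R.Bef a b :=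
  Finset.sum_nonneg fun ω _ => by
    split_ifs
    exacts [R.w_nonneg ω, le_rfl]

theorem cut_nonneg (R : RF V) (z : V) : 0 ≤ R.Cut z :=
  Finset.sum_nonneg fun ω _ => by
    split_ifs
    exacts [R.w_nonneg ω, le_rfl]

/-- probability that `a` comes before `b` in the piece started at `u` -/
noncomputable def bf (M : V → RF V) (u a b : V) : ℝ :=
  if b = u then 0 else if a = u then (M u).In b else (M u).Bef a b

theorem bf_nonneg (M : V → RF V) (u a b : V) : 0 ≤ bf M u a b := by
  unfold bf
  split_ifs
  exacts [le_rfl, in_nonneg _ _, bef_nonneg _ _ _]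

theorem cov_eq (M : V → RF V) (u a b : V) (h : a ≠ b) :
    covX M u a b = bf M u a b + bf M u b a := by
  unfold covX bf
  by_cases ha : a = u
  · have hb : b ≠ u := fun hb => h (ha.trans hb.symm)
    simp [ha, hb]
  · by_cases hb : b = u
    · simp [ha, hb]
    · simp [ha, hb]

theorem inX_nonneg (M : V → RF V) (u a : V) : 0 ≤ inX M u a := by
  unfold inX
  split_ifs
  exacts [zero_le_one, in_nonneg _ _]

theorem bf_up (H : SimpleGraph V) (θ : ℝ) (ℓ : ℕ) (M : V → RF V) (u a b : V)
    (hC : Core H θ {u} ℓ (M u)) (hI : ∀ b, H.Adj u b → (M u).In b = θ) (hab : H.Adj a b) :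
    bf M u a b ≤ θ * (inX M u a - bf M u b a) := by
  have hne : a ≠ b := hab.ne
  unfold bf inX
  by_cases ha : a = u
  · have hb : b ≠ u := fun hb => hne (ha.trans hb.symm)
    subst ha
    simp [hb, hI b hab]
  · by_cases hb : b = u
    · simp [ha, hb]
    · simp only [ha, hb, if_false]
      exact hC.up a b (by simpa using ha) (by simpa using hb) hab

theorem bf_lo (H : SimpleGraph V) (θ : ℝ) (ℓ : ℕ) (M : V → RF V) (u a b : V) (hθ : 0 ≤ θ)
    (hC : Core H θ {u} ℓ (M u)) (hI : ∀ b, H.Adj u b → (M u).In b = θ) (hab : H.Adj a b) :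
    θ * (inX M u a - bf M u b a - (M u).Cut a) ≤ bf M u a b := by
  have hne : a ≠ b := hab.ne
  have hc := mul_nonneg hθ (cut_nonneg (M u) a)
  unfold bf inX
  by_cases ha : a = u
  · have hb : b ≠ u := fun hb => hne (ha.trans hb.symm)
    subst ha
    simp only [hb, if_false, if_true, hI b hab]
    nlinarith
  · by_cases hb : b = u
    · simp only [ha, hb, if_false, if_true]
      nlinarith
    · simp only [ha, hb, if_false]
      exact hC.lo a b (by simpa using ha) (by simpa using hb) hab

theorem in_le [Fintype V] (H : SimpleGraph V) (θ : ℝ) (ℓ : ℕ) (M : V → RF V) (u b : V)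
    (hb : b ≠ u) (hC : Core H θ {u} ℓ (M u)) :
    (M u).In b ≤ ∑ a ∈ nbr H b, bf M u a b := by
  have h1 : ∀ a ∈ nbr H b, bf M u a b =
      ∑ ω, (if (a = u ∧ b ∈ (M u).F ω) ∨ (a ≠ u ∧ [a, b].Sublist ((M u).F ω))
        then (M u).w ω else 0) := by
    intro a _
    unfold bf
    by_cases ha : a = u
    · simp [hb, ha, RF.In]
    · simp [hb, ha, RF.Bef]
  rw [Finset.sum_congr rfl h1, Finset.sum_comm]
  unfold RF.In
  refine Finset.sum_le_sum fun ω _ => ?_
  by_cases hbF : b ∈ (M u).F ω
  · rw [if_pos hbF]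
    obtain ⟨a, hab, h2⟩ := hC.link ω b hbF
    have ha : a ∈ nbr H b := by simp [nbr, hab.symm]
    have h3 : (a = u ∧ b ∈ (M u).F ω) ∨ (a ≠ u ∧ [a, b].Sublist ((M u).F ω)) := by
      by_cases hau : a = u
      · exact Or.inl ⟨hau, hbF⟩
      · rcases h2 with h2 | h2
        · exact absurd (by simpa using h2) hau
        · exact Or.inr ⟨hau, h2⟩
    calc (M u).w ω = (if (a = u ∧ b ∈ (M u).F ω) ∨ (a ≠ u ∧ [a, b].Sublist ((M u).F ω))
        then (M u).w ω else 0) := by rw [if_pos h3]
      _ ≤ _ := Finset.single_le_sum (f := fun a => if (a = u ∧ b ∈ (M u).F ω) ∨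
            (a ≠ u ∧ [a, b].Sublist ((M u).F ω)) then (M u).w ω else 0)
          (fun i _ => by
            show (0 : ℝ) ≤ if _ then _ else _
            split_ifs
            exacts [(M u).w_nonneg ω, le_rfl]) ha
  · rw [if_neg hbF]
    exact Finset.sum_nonneg fun a _ => by
      split_ifs
      exacts [(M u).w_nonneg ω, le_rfl]

end Basic

/-- a fixed point of the truncated map -/
theorem fixed (V : Type) [Fintype V] (f : V → V → ℝ) (hf : ∀ u v, 0 ≤ f u v)
    (hd : ∀ v, f v v = 1) :
    ∃ μ : V → ℝ, (∀ v, 0 ≤ μ v) ∧ (∀ v, μ v ≤ 1) ∧ (∀ v, 1 ≤ ∑ u, μ u * f u v) ∧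
      ∀ v, μ v ≠ 0 → ∑ u, μ u * f u v = 1 := by
  obtain ⟨μ, hμ, hfix⟩ := Pool.Agent.Helper30.Brouwer.brouwer_fd (Set.Icc (0 : V → ℝ) 1)
    isCompact_Icc (convex_Icc _ _) ⟨0, by simp⟩
    (fun μ v => max 0 (min 1 (μ v + 1 - ∑ u, μ u * f u v)))
    (by
      refine Continuous.continuousOn ?_
      refine continuous_pi fun v => ?_
      refine continuous_const.max (continuous_const.min ?_)
      refine ((continuous_apply v).add continuous_const).sub ?_
      exact continuous_finsetSum _ fun u _ => (continuous_apply u).mul continuous_const)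
    (by
      intro μ _
      refine ⟨fun v => le_max_left _ _, fun v => ?_⟩
      exact max_le zero_le_one (min_le_left _ _))
  have h0 : ∀ v, 0 ≤ μ v := fun v => hμ.1 v
  have h1 : ∀ v, μ v ≤ 1 := fun v => hμ.2 v
  have hF : ∀ v, max 0 (min 1 (μ v + 1 - ∑ u, μ u * f u v)) = μ v := fun v => congrFun hfix v
  have hge : ∀ v, μ v ≤ ∑ u, μ u * f u v := by
    intro v
    calc μ v = μ v * f v v := by rw [hd, mul_one]
      _ ≤ ∑ u, μ u * f u v :=
        Finset.single_le_sum (f := fun u => μ u * f u v) (fun u _ => mul_nonneg (h0 u) (hf u v))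
          (Finset.mem_univ v)
  have hcase : ∀ v, 1 ≤ ∑ u, μ u * f u v ∧ (μ v ≠ 0 → ∑ u, μ u * f u v = 1) := by
    intro v
    set a := ∑ u, μ u * f u v with ha
    have hv := hF v
    rw [← ha] at hv
    rcases eq_or_lt_of_le (h0 v) with h | h
    · rw [← h] at hv
      refine ⟨?_, fun hne => absurd h.symm hne⟩
      by_contra hcon
      push Not at hcon
      have : 0 < min 1 (0 + 1 - a) := lt_min one_pos (by linarith)
      have := le_max_right 0 (min 1 (0 + 1 - a))
      linarith
    · rcases eq_or_lt_of_le (h1 v) with h' | h'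
      · have h2 : a ≤ 1 := by
          by_contra hcon
          push Not at hcon
          rw [h'] at hv
          have : min 1 (1 + 1 - a) < 1 := lt_of_le_of_lt (min_le_right _ _) (by linarith)
          have := max_lt one_pos this
          linarith
        have h3 := hge v
        rw [← ha] at h3
        have h4 : a = 1 := by linarith
        exact ⟨h4.ge, fun _ => h4⟩
      · have h2 : a = 1 := by
          rcases max_cases 0 (min 1 (μ v + 1 - a)) with ⟨h5, _⟩ | ⟨h5, _⟩
          · linarith
          · rcases min_cases 1 (μ v + 1 - a) with ⟨h6, _⟩ | ⟨h6, _⟩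
            · linarith
            · linarith
        exact ⟨h2.ge, fun _ => h2⟩
  exact ⟨μ, h0, h1, fun v => (hcase v).1, fun v => (hcase v).2⟩

theorem mu : MuStmt := by
  intro V _ H Δ ℓ θ η1 M hD hθ hθ1 hη hsmall hC hIn hI hcut
  have hθ0 : 0 ≤ θ := hθ.le
  obtain ⟨μ, h0, h1, hge, heq⟩ := fixed V (inX M) (inX_nonneg M) (fun v => by simp [inX])
  set A : V → V → ℝ := fun a b => ∑ u, μ u * bf M u a b with hA
  have hA0 : ∀ a b, 0 ≤ A a b := fun a b =>
    Finset.sum_nonneg fun u _ => mul_nonneg (h0 u) (bf_nonneg M u a b)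
  set s : V → ℝ := fun v => ∑ u, μ u * inX M u v with hs
  have hY : ∀ b, ∑ u, μ u * (M u).Cut b ≤ η1 := by
    intro b
    refine le_trans (Finset.sum_le_sum fun u _ => ?_) (hcut b)
    have := cut_nonneg (M u) b
    nlinarith [h1 u, h0 u]
  have hY0 : ∀ b, 0 ≤ ∑ u, μ u * (M u).Cut b := fun b =>
    Finset.sum_nonneg fun u _ => mul_nonneg (h0 u) (cut_nonneg _ _)
  have hup : ∀ a b, H.Adj a b → A a b ≤ θ * (s a - A b a) := by
    intro a b hab
    calc A a b ≤ ∑ u, μ u * (θ * (inX M u a - bf M u b a)) :=
          Finset.sum_le_sum fun u _ =>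
            mul_le_mul_of_nonneg_left (bf_up H θ ℓ M u a b (hC u) (hI u) hab) (h0 u)
      _ = θ * (s a - A b a) := by
          simp only [hs, hA]
          rw [← Finset.sum_sub_distrib, Finset.mul_sum]
          exact Finset.sum_congr rfl fun u _ => by ring
  have hlo : ∀ a b, H.Adj a b → θ * (s a - A b a - η1) ≤ A a b := by
    intro a b hab
    have h2 : θ * (s a - A b a - ∑ u, μ u * (M u).Cut a) ≤ A a b := by
      calc θ * (s a - A b a - ∑ u, μ u * (M u).Cut a)
          = ∑ u, μ u * (θ * (inX M u a - bf M u b a - (M u).Cut a)) := by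
            simp only [hs, hA]
            rw [← Finset.sum_sub_distrib, ← Finset.sum_sub_distrib, Finset.mul_sum]
            exact Finset.sum_congr rfl fun u _ => by ring
        _ ≤ A a b := Finset.sum_le_sum fun u _ =>
            mul_le_mul_of_nonneg_left (bf_lo H θ ℓ M u a b hθ0 (hC u) (hI u) hab) (h0 u)
    have h3 := mul_le_mul_of_nonneg_left (hY a) hθ0
    nlinarith
  -- all totals are one
  have hone : ∀ v, s v = 1 := by
    by_cases hne : Nonempty V
    · obtain ⟨v, _, hv⟩ := Finset.exists_max_image (univ : Finset V) s Finset.univ_nonempty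
      have hv1 : s v ≤ 1 := by
        by_cases hμ : μ v = 0
        · have h2 : s v ≤ ∑ a ∈ nbr H v, A a v := by
            calc s v = ∑ u, μ u * inX M u v := rfl
              _ ≤ ∑ u, μ u * ∑ a ∈ nbr H v, bf M u a v := by
                  refine Finset.sum_le_sum fun u _ => ?_
                  by_cases huv : v = u
                  · rw [← huv, hμ, zero_mul, zero_mul]
                  · refine mul_le_mul_of_nonneg_left ?_ (h0 u)
                    have : inX M u v = (M u).In v := by simp [inX, huv]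
                    rw [this]
                    exact in_le H θ ℓ M u v huv (hC u)
              _ = ∑ a ∈ nbr H v, A a v := by
                  simp only [hA, Finset.mul_sum]
                  exact Finset.sum_comm
          have hp : 0 < 1 - θ ^ 2 := by nlinarith
          have h3 : ∀ a ∈ nbr H v, A a v ≤ θ * s v / (1 + θ) + θ ^ 2 * η1 / (1 - θ ^ 2) := by
            intro a ha
            have hadj : H.Adj v a := by simpa [nbr] using ha
            have e1 := hup a v hadj.symm
            have e2 := hlo v a hadj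
            have e3 := hv a (Finset.mem_univ a)
            have e4 : (1 - θ ^ 2) * A a v ≤ θ * s v - θ ^ 2 * s v + θ ^ 2 * η1 := by
              have e5 := mul_le_mul_of_nonneg_left e2 hθ0
              have e6 := mul_le_mul_of_nonneg_left e3 hθ0
              nlinarith
            have e7 : θ * s v / (1 + θ) + θ ^ 2 * η1 / (1 - θ ^ 2) =
                (θ * s v - θ ^ 2 * s v + θ ^ 2 * η1) / (1 - θ ^ 2) := by
              have : (1 : ℝ) + θ ≠ 0 := by positivity
              have h8 : (1 : ℝ) - θ ^ 2 ≠ 0 := hp.ne'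
              have h9 : (1 : ℝ) - θ ^ 2 = (1 + θ) * (1 - θ) := by ring
              have h10 : (1 : ℝ) - θ ≠ 0 := by
                intro h; apply h8; rw [h9, h, mul_zero]
              rw [h9]
              field_simp
            rw [e7, le_div_iff₀ hp]
            linarith
          have hbnd : 0 ≤ θ * s v / (1 + θ) + θ ^ 2 * η1 / (1 - θ ^ 2) := by
            have : 0 ≤ s v := by linarith [hge v]
            positivity
          have h4 : s v ≤ Δ * (θ * s v / (1 + θ) + θ ^ 2 * η1 / (1 - θ ^ 2)) := by
            calc s v ≤ ∑ a ∈ nbr H v, A a v := h2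
              _ ≤ (nbr H v).card • (θ * s v / (1 + θ) + θ ^ 2 * η1 / (1 - θ ^ 2)) :=
                  Finset.sum_le_card_nsmul _ _ _ h3
              _ = ((nbr H v).card : ℝ) * (θ * s v / (1 + θ) + θ ^ 2 * η1 / (1 - θ ^ 2)) := by
                  rw [nsmul_eq_mul]
              _ ≤ _ := mul_le_mul_of_nonneg_right (by exact_mod_cast hD v) hbnd
          have h5 : Δ * (θ * s v / (1 + θ) + θ ^ 2 * η1 / (1 - θ ^ 2)) =
              Δ * θ / (1 + θ) * s v + Δ * θ ^ 2 * η1 / (1 - θ ^ 2) := by ring
          rw [h5] at h4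
          have h6 : 0 ≤ Δ * θ ^ 2 * η1 / (1 - θ ^ 2) := by positivity
          have h7 : 0 < 1 - Δ * θ / (1 + θ) := lt_of_le_of_lt h6 hsmall
          by_contra hcon
          push Not at hcon
          have h8 : 0 < (s v - 1) * (1 - Δ * θ / (1 + θ)) := mul_pos (by linarith) h7
          nlinarith
        · exact (heq v hμ).le
      intro w
      exact le_antisymm ((hv w (Finset.mem_univ w)).trans hv1) (hge w)
    · intro w
      exact absurd ⟨w⟩ hne
  refine ⟨μ, h0, hone, fun a b hab => ?_⟩
  have hcov : ∑ u, μ u * covX M u a b = A a b + A b a := by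
    simp only [hA]
    rw [← Finset.sum_add_distrib]
    refine Finset.sum_congr rfl fun u _ => ?_
    rw [cov_eq M u a b hab.ne]
    ring
  rw [hcov]
  have u1 := hup a b hab
  have u2 := hup b a hab.symm
  have l1 := hlo a b hab
  have l2 := hlo b a hab.symm
  rw [hone a] at u1 l1
  rw [hone b] at u2 l2
  have hpos : 0 < 1 + θ := by linarith
  constructor
  · rw [div_mul_eq_mul_div, div_le_iff₀ hpos]
    nlinarith
  · rw [le_div_iff₀ hpos]
    nlinarith

end Pool.Agent.Helper77.PU
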